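import Pool.Agent.H68.NC.Data

/-!
# MP_df26cd_co: a neighborly family of 32 combinatorial cubes

`E3`: Euclidean three-space.  `cube`: the cube `[0,1]^3`.  `Face P`: the faces of a convex polytope `P` (its exposed faces, `∅` and `P` included), ordered by
inclusion.  `IsPolyhedron P`: `P` is the convex hull of a finite set and has interior points.  `IsCombCube P`: `P` is a polyhedron and its face lattice is
isomorphic to the face lattice of the cube.  `Neighborly P`: any two different members have disjoint interiors and meet in a set of positive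
two-dimensional Hausdorff measure.

`result`: there is a neighborly family of 32 polyhedra which are all combinatorially equivalent to a cube.
-/

set_option autoImplicit false

open MeasureTheory

namespace Pool.Agent.Results.MP_df26cd_co.ThirtyTwo

/-- Euclidean three-space -/
abbrev E3 := EuclideanSpace ℝ (Fin 3)

/-- the cube `[0,1]^3` -/
def cube : Set E3 := {x | ∀ i, 0 ≤ x i ∧ x i ≤ 1}

/-- the faces of `P`, ordered by inclusion -/
abbrev Face (P : Set E3) := {F : Set E3 // IsExposed ℝ P F}

/-- three-dimensional convex polytopes -/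
def IsPolyhedron (P : Set E3) : Prop :=
  (∃ s : Finset E3, P = convexHull ℝ (s : Set E3)) ∧ (interior P).Nonempty

/-- combinatorially equivalent to the cube -/
def IsCombCube (P : Set E3) : Prop := IsPolyhedron P ∧ Nonempty (Face P ≃o Face cube)

/-- a neighborly family -/
def Neighborly {m : ℕ} (P : Fin m → Set E3) : Prop :=
  ∀ i j, i ≠ j → Disjoint (interior (P i)) (interior (P j)) ∧ 0 < μH[2] (P i ∩ P j)

/-- the vertices of the cube -/
private noncomputable def cv (e : Fin 3 → Bool) : E3 := WithLp.toLp 2 fun i => if e i then 1 else 0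

/-- the facets of the cube -/
private noncomputable def cg (k : Fin 3) (b : Bool) : (E3 →L[ℝ] ℝ) × ℝ :=
  if b then (-EuclideanSpace.proj k, 1) else (EuclideanSpace.proj k, 0)

private theorem cube_inc : H68.NC.Inc cv cg := by
  constructor
  · intro k e
    cases h : e k <;> simp [cg, cv, H68.NC.af, h]
  · intro k e
    cases h : e k <;> simp [cg, cv, H68.NC.af, h]

private theorem cube_eq : cube = H68.NC.Pol cg := by
  ext x
  constructor
  · intro h k b
    cases b
    · simpa [cg, H68.NC.af] using (h k).1
    · simpa [cg, H68.NC.af] using (h k).2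
  · intro h k
    refine ⟨?_, ?_⟩
    · have := h k false
      simpa [cg, H68.NC.af] using this
    · have := h k true
      simpa [cg, H68.NC.af] using this

private theorem comb {v : (Fin 3 → Bool) → E3} {g : Fin 3 → Bool → (E3 →L[ℝ] ℝ) × ℝ} (h : H68.NC.Inc v g) :
    IsCombCube (H68.NC.Pol g) := by
  classical
  refine ⟨⟨⟨Finset.univ.image v, ?_⟩, H68.NC.inner h⟩, ?_⟩
  · rw [← H68.NC.hull_eq h]
    simp
  · rw [cube_eq]
    exact ⟨(H68.NC.facesIso h).trans (H68.NC.facesIso cube_inc).symm⟩

theorem result : ∃ P : Fin 32 → Set E3, (∀ i, IsCombCube (P i)) ∧ Neighborly P := by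
  obtain ⟨h1, h2⟩ := H68.NC.achk_sound _ _ H68.NC.all_ok
  have hlen : H68.NC.mems.length = 32 := H68.NC.mems_length
  let P : Fin 32 → Set E3 := fun i => H68.NC.Pol (H68.NC.mems.get (Fin.cast hlen.symm i)).g
  have key : ∀ i j : Fin 32, i < j → Disjoint (interior (P i)) (interior (P j)) ∧ 0 < μH[2] (P i ∩ P j) := by
    intro i j hij
    obtain ⟨c, hc⟩ := List.pairwise_iff_get.1 h2 (Fin.cast hlen.symm i) (Fin.cast hlen.symm j) hij
    exact H68.NC.cchk_sound _ _ c hc
  refine ⟨P, fun i => ?_, fun i j hij => ?_⟩
  · exact comb (H68.NC.mchk_sound _ (h1 _ (List.get_mem _ _)))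
  · rcases lt_or_gt_of_ne hij with h | h
    · exact key i j h
    · have := key j i h
      rw [Set.inter_comm]
      exact ⟨this.1.symm, this.2⟩

end Pool.Agent.Results.MP_df26cd_co.ThirtyTwo
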